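import Pool.Agent.P.MP_f43029_ag.XL.Top

/-!
Duality for Hochster's theta pairing on maximal Cohen-Macaulay modules over an arbitrary local
hypersurface with isolated singularity (equal or mixed characteristic).
-/

set_option autoImplicit false

namespace Pool.Agent.Results.MP_f43029_ag.Full

open IsLocalRing CategoryTheory Pool.Agent.P.MP_f43029_ag

/-- `theta (M, N) = a₂ - a₁` and `theta (M*, N) = b₂ - b₁`. -/
theorem result (A : Type) [CommRing A] [IsLocalRing A] [IsNoetherianRing A]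
    (hA : ∃ (R : Type) (_ : CommRing R) (_ : IsRegularLocalRing R)
      (_ : IsAdicComplete (maximalIdeal R) R) (f : R), f ≠ 0 ∧ f ∈ maximalIdeal R ∧
      Nonempty (AdicCompletion (maximalIdeal A) A ≃+* R ⧸ Ideal.span {f}))
    (hiso : ∀ (p : Ideal A) [p.IsPrime], p ≠ maximalIdeal A →
      IsRegularLocalRing (Localization.AtPrime p))
    (d : ℕ) (hd : ringKrullDim A = d) (M N : ModuleCat.{0} A) (hM : IsMCM A M) (hN : IsMCM A N) :
    ∃ a₁ a₂ b₁ b₂ : ℕ,
      Module.length A (((Tor (ModuleCat.{0} A) 1).obj M).obj N) = a₁ ∧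
      Module.length A (((Tor (ModuleCat.{0} A) 2).obj M).obj N) = a₂ ∧
      Module.length A
        (((Tor (ModuleCat.{0} A) 1).obj (ModuleCat.of A (Module.Dual A M))).obj N) = b₁ ∧
      Module.length A
        (((Tor (ModuleCat.{0} A) 2).obj (ModuleCat.of A (Module.Dual A M))).obj N) = b₂ ∧
      (Odd d → ((a₂ : ℤ) - a₁) + (-1) ^ ((d + 1) / 2) * ((b₂ : ℤ) - b₁) = 0) ∧
      (Even d → (a₂ : ℤ) - a₁ = 0 ∧ (b₂ : ℤ) - b₁ = 0) :=
  full_of_MFMixed (MFMixed_of_MFW XL.mfw) A hA hiso d hd M N hM hN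

end Pool.Agent.Results.MP_f43029_ag.Full
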